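import Pool.Agent.P.MP_a407c4_co.Shift

namespace Pool.Agent.Results.MP_a407c4_co.Parity

open Pool.Agent.P.MP_a407c4_co

theorem result (A : Type) [Fintype A] (hA : 1 < Fintype.card A) (r : ℕ) (hr : 1 ≤ r) :
    (∀ n : ℕ, 1 ≤ n → ∀ B : Set (List A), (∀ v ∈ B, v.length = n) →
      Guaranteed n r r B → Guaranteed n (r + 1) (r + 1) B) ↔ (r = 1 ∨ Even r) := by
  have := Fintype.one_lt_card_iff_nontrivial.1 hA
  exact Par.classification hr

/-- The negated form of the question, as posed. -/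
theorem posed : ∃ (A : Type) (_ : Fintype A), 1 < Fintype.card A ∧ ∃ n r : ℕ, 1 ≤ n ∧ 1 ≤ r ∧
    ∃ B : Set (List A), (∀ v ∈ B, v.length = n) ∧ Guaranteed n r r B ∧
      ¬ Guaranteed n (r + 1) (r + 1) B := by
  have h := (result Bool (by simp) 3 (by omega)).not.2 (by decide)
  simp only [not_forall] at h
  obtain ⟨n, h1, B, h2, h3, h4⟩ := h
  exact ⟨Bool, inferInstance, by simp, n, 3, h1, by omega, B, h2, h3, h4⟩

end Pool.Agent.Results.MP_a407c4_co.Parity
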